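import Pool.Agent.H39WZ.Ind

/-!
# The numbers `ζ (α p)` for almost all algebraic values `ζ (p)`, with all conjugates

Let `L` be a lattice with the Weierstrass functions `℘`, `ζ`. The question is whether `α p ∉ L` and `ζ (α p)` is transcendental
if `g₂`, `g₃`, `ζ (p)` and `α` are algebraic, `α ≠ 0, ± 1` (with exceptions for `g₂ g₃ = 0`). Here is a metric answer for the
algebraic numbers `x = ζ (p)` of a given degree. Let `x ↦ Z (x)` be a branch of the inverse function of `ζ` on a connected
open set `V` (so `p = Z (x)` is a point with `ζ (p) = x`), and let `α_1, …, α_m` be algebraic numbers such that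
`1, α_1, …, α_m` are linearly independent over the ring of the `c` with `c L ⊆ L` (for `m = 1`: `α ∉ k`), and
`α_j Z (x) ∉ L` for `x ∈ V`. Then for almost all integral polynomials of degree `g` the following holds for all their roots
`x_1, …, x_r` in `V` (for an irreducible polynomial these are conjugate algebraic numbers) together: the `(2 m + 2) r`
numbers `p_i = Z (x_i)`, `℘ (p_i)`, `℘ (α_j p_i)`, `ζ (α_j p_i)` satisfy no relation of degree `≤ k` with coefficients of
height `≤ T ^ k`, where `T` is the height of the polynomial and `k = ω(T) → ∞`. In particular `ζ (α_j p_i)` is not a zero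
of a nonzero integral polynomial of degree `≤ k` and height `≤ T ^ k`. The coefficients may also contain arbitrary given
complex numbers `ξ_0, ξ_1, …` (for example all the monomials in `g₂`, `g₃`, the periods and quasi-periods).

Proof: the functions `z`, `℘ (z)`, `ζ (z)`, `℘ (α_j z)`, `ζ (α_j z)` are algebraically independent over the complex numbers
(Ax), so the functions `Z`, `℘ (Z)`, `℘ (α_j Z)`, `ζ (α_j Z)` are algebraically independent over `ℂ(x)`, and we apply the
theorem `Pool.Agent.X255.RH.main_all` on the values of such functions at all roots of almost all polynomials.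
-/

set_option autoImplicit false

open Polynomial Filter Topology NumberField
open scoped PeriodPair

namespace Pool.Agent.Results.MP_0c15f2_nt.AllRootsOfPolynomials

variable {m : ℕ}

/-! ### The functions -/

/-- The Weierstrass zeta function of the lattice `L` (the term of `l = 0` is `1 / z`). -/
noncomputable def zeta (L : PeriodPair) (z : ℂ) : ℂ := ∑' l : L.lattice, (1 / (z - l) + 1 / l + z / l ^ 2)

/-- The numbers `p`, `℘ (p)`, `℘ (α_j p)`, `ζ (α_j p)`. -/
noncomputable def value (L : PeriodPair) (α : Fin m → ℂ) (p : ℂ) : Fin 2 ⊕ (Fin m ⊕ Fin m) → ℂ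
  | Sum.inl i => ![p, ℘[L] p] i
  | Sum.inr (Sum.inl j) => ℘[L] (α j * p)
  | Sum.inr (Sum.inr j) => zeta L (α j * p)

/-- `1, α_1, …, α_m` are linearly independent over the ring of the complex numbers `c` with `c L ⊆ L`. (The `α_j` need not
be algebraic.) -/
def Independent (L : PeriodPair) (α : Fin m → ℂ) : Prop :=
  ∀ (c₀ : ℂ) (c : Fin m → ℂ), (∀ l ∈ L.lattice, c₀ * l ∈ L.lattice) →
    (∀ j, ∀ l ∈ L.lattice, c j * l ∈ L.lattice) → c₀ + ∑ j, c j * α j = 0 → c₀ = 0 ∧ c = 0

/-- `Z` is a branch of the inverse function of `ζ` on the nonempty connected open set `V`, and its values and their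
multiples by the `α_j` are not in the lattice. -/
structure IsBranch (L : PeriodPair) (α : Fin m → ℂ) (V : Set ℂ) (Z : ℂ → ℂ) : Prop where
  isOpen : IsOpen V
  isPreconnected : IsPreconnected V
  nonempty : V.Nonempty
  analytic : AnalyticOnNhd ℂ Z V
  inverse : ∀ x ∈ V, zeta L (Z x) = x
  notMem : ∀ x ∈ V, Z x ∉ L.lattice
  notMem_mul : ∀ x ∈ V, ∀ j, α j * Z x ∉ L.lattice

/-! ### Polynomials and their roots -/

/-- The integral vectors `a = (a_0, …, a_g)` with `|a_i| ≤ T`. -/
noncomputable def box (g T : ℕ) : Finset (Fin (g + 1) → ℤ) := Fintype.piFinset fun _ => Finset.Icc (-(T : ℤ)) (T : ℤ)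

/-- The polynomial `a_0 + a_1 x + … + a_g x^g`. -/
noncomputable def poly {g : ℕ} (a : Fin (g + 1) → ℤ) : ℂ[X] := ∑ i, C (a i : ℂ) * X ^ (i : ℕ)

/-- The points of `V` at distance at least `1 / (k + 1)` from the complement of `V`. -/
def dom (V : Set ℂ) (k : ℕ) : Set ℂ := {z | z ∈ V ∧ ∀ w, w ∉ V → 1 / ((k : ℝ) + 1) ≤ ‖z - w‖}

/-- The roots in `dom V k` of the polynomial with the coefficients `a`. -/
noncomputable def roots (V : Set ℂ) {g : ℕ} (k : ℕ) (a : Fin (g + 1) → ℤ) : Finset ℂ := by
  classical exact (poly a).roots.toFinset.filter fun z => z ∈ dom V k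

/-- The numbers `x q` satisfy no relation of degree at most `k` in each of them with coefficients `∑_{b < k} ξ_b c_b`,
where the `c_b` are integers of a number field of degree at most `k` all of whose conjugates are at most `T ^ k`, except
the relations all of whose coefficients vanish. -/
def NoRelation {Q : Type} [Fintype Q] [DecidableEq Q] (ξ : ℕ → ℂ) (k : ℕ) (T : ℝ) (x : Q → ℂ) : Prop :=
  ∀ (F : Type) [Field F] [NumberField F], Module.finrank ℚ F ≤ k → ∀ (io : F →+* ℂ)
    (c : (Q → Fin (k + 1)) → Fin k → 𝓞 F), (∀ l b (φ : F →+* ℂ), ‖φ (c l b : F)‖ ≤ T ^ k) →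
    ∑ l, (∑ b : Fin k, ξ b * io (c l b : F)) * ∏ q, x q ^ (l q : ℕ) = 0 → ∀ l, ∑ b : Fin k, ξ b * io (c l b : F) = 0

/-- The polynomial with the coefficients `a` has degree `g` and simple roots, and for all its roots `x` in `dom V k`
together, `p = Z x`, there is no relation between the numbers `p`, `℘ (p)`, `℘ (α_j p)`, `ζ (α_j p)`. -/
def Good (L : PeriodPair) (α : Fin m → ℂ) (V : Set ℂ) (Z : ℂ → ℂ) {g : ℕ} (ξ : ℕ → ℂ) (k : ℕ) (T : ℝ)
    (a : Fin (g + 1) → ℤ) : Prop :=
  a (Fin.last g) ≠ 0 ∧ (poly a).Separable ∧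
    NoRelation ξ k T fun q : {x // x ∈ roots V k a} × (Fin 2 ⊕ (Fin m ⊕ Fin m)) => value L α (Z q.1) q.2

/-! ### The theorem -/

theorem tame (V : Set ℂ) (k : ℕ) : Pool.Agent.X255.RH.Tame (dom V k) V :=
  ⟨∅, 1 / ((k : ℝ) + 1), by positivity, fun R => by simp, fun z hz w hw => Or.inr (Or.inr (hz.2 w hw))⟩

open scoped Classical in
/-- **The theorem.** Let `1, α_1, …, α_m` be linearly independent over the ring of the `c` with `c L ⊆ L`, and let `Z` be a
branch of the inverse function of `ζ` on `V`. For every degree `g ≥ 1` and all complex numbers `ξ_0, ξ_1, …` (for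
instance `ξ_0 = 1` and all others zero) there is a function `ω(T) → ∞` such that among the `(2 T + 1)^(g + 1)` integral
polynomials of degree at most `g` with coefficients at most `T` at most the proportion `1 / ω(T)` is not good. -/
theorem result (L : PeriodPair) (α : Fin m → ℂ) (hα : Independent L α) (V : Set ℂ) (Z : ℂ → ℂ)
    (hZ : IsBranch L α V Z) (g : ℕ) (hg : 0 < g) (ξ : ℕ → ℂ) :
    ∃ ω : ℕ → ℕ, Tendsto ω atTop atTop ∧ Monotone ω ∧ ∀ T : ℕ,
      ω T * ((box g T).filter fun a => ¬ Good L α V Z ξ (ω T) T a).card ≤ (box g T).card := by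
  obtain ⟨hfa, hfi⟩ := Pool.Agent.H39WZ.branch_indep (L := L) (α := α) ⟨hα⟩ hZ.isOpen hZ.nonempty hZ.analytic hZ.notMem
    hZ.notMem_mul hZ.inverse
  obtain ⟨ω, h1, h2, h3⟩ := Pool.Agent.X255.RH.main_all
    (f := fun (k : Fin 2 ⊕ (Fin m ⊕ Fin m)) x => Pool.Agent.H39WZ.value L α (Z x) k) hg hZ.isPreconnected hZ.isOpen
    (dom V) (tame V) hfa (Pool.Agent.X255.RH.indep_of_aindepS hfi) ξ
  refine ⟨ω, h1, h2, fun T => ?_⟩
  have key := h3 T
  have hsub : ((box g T).filter fun a => ¬ Good L α V Z ξ (ω T) T a) ⊆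
      ((Pool.Agent.X255.RH.bx g T).filter fun a => ¬ Pool.Agent.X255.RH.Good (dom V (ω T))
        (fun (k : Fin 2 ⊕ (Fin m ⊕ Fin m)) x => Pool.Agent.H39WZ.value L α (Z x) k) ξ (ω T) T a) := by
    intro a ha
    rw [Finset.mem_filter] at ha ⊢
    refine ⟨ha.1, fun hgood => ha.2 ⟨hgood.1, hgood.2.1, ?_⟩⟩
    have h5 : (fun q : {x // x ∈ roots V (ω T) a} × (Fin 2 ⊕ (Fin m ⊕ Fin m)) => value L α (Z q.1) q.2) =
        Pool.Agent.X255.RH.vals (dom V (ω T))
          (fun (k : Fin 2 ⊕ (Fin m ⊕ Fin m)) x => Pool.Agent.H39WZ.value L α (Z x) k) a := by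
      funext q
      obtain ⟨x, k⟩ := q
      rcases k with k | k | k <;> rfl
    rw [h5]
    exact hgood.2.2
  exact le_trans (Nat.mul_le_mul_left _ (Finset.card_le_card hsub)) key

end Pool.Agent.Results.MP_0c15f2_nt.AllRootsOfPolynomials
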